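import Pool.Agent.Helper10.DE.ET.Hent

/-!
# DE I.5  The specific entropy is affine on invariant measures; pairs; products

* `hent_mix`: `HF_mix_ge`, `HF_mix_le`, divide by `n^d`, `hent_tendsto` (needs `d ≥ 1` for
  `log 2 / n^d → 0`), `mix` of invariant measures is invariant.
* `hent_pair_le`: the pattern of `ω` on `F` is the pair of the patterns of `c1 ω`, `c2 ω`; `ent_pair_le`.
* `hent_pairLaw`: `HF (pairLaw μ ν) F = HF μ F + HF ν F` by `ent_prod`.
-/

noncomputable section

open MeasureTheory Filter Topology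

namespace Helper15.DE

variable {d : ℕ} {A : Type} [Fintype A] [MeasurableSpace A] [MeasurableSingletonClass A]

theorem mix_shift (t : ℝ) (μ ν : Measure (V d → A)) (hμ : ∀ v, μ.map (shift v) = μ)
    (hν : ∀ v, ν.map (shift v) = ν) (v : V d) : (mix t μ ν).map (shift v) = mix t μ ν := by
  unfold mix
  rw [Measure.map_add _ _ (measurable_shiftE v), Measure.map_smul, Measure.map_smul, hμ, hν]

theorem hent_mix (hd : 1 ≤ d) (t : ℝ) (h0 : 0 ≤ t) (h1 : t ≤ 1) (μ ν : Measure (V d → A))
    [IsProbabilityMeasure μ] [IsProbabilityMeasure ν] (hμ : ∀ v, μ.map (shift v) = μ)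
    (hν : ∀ v, ν.map (shift v) = ν) :
    hent (mix t μ ν) = t * hent μ + (1 - t) * hent ν := by
  have hP : IsProbabilityMeasure (mix t μ ν) := mix_prob t h0 h1 μ ν
  have hc := hent_tendsto (mix t μ ν) (mix_shift t μ ν hμ hν)
  have ha := hent_tendsto μ hμ
  have hb := hent_tendsto ν hν
  have hlow : Tendsto (fun n : ℕ => t * (HF μ (box d n) / (n : ℝ) ^ d) +
      (1 - t) * (HF ν (box d n) / (n : ℝ) ^ d)) atTop (𝓝 (t * hent μ + (1 - t) * hent ν)) :=
    (ha.const_mul t).add (hb.const_mul (1 - t))
  have hlog : Tendsto (fun n : ℕ => Real.log 2 / (n : ℝ) ^ d) atTop (𝓝 0) := by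
    refine Tendsto.div_atTop tendsto_const_nhds ?_
    exact (tendsto_pow_atTop (by omega)).comp tendsto_natCast_atTop_atTop
  have hup : Tendsto (fun n : ℕ => t * (HF μ (box d n) / (n : ℝ) ^ d) +
      (1 - t) * (HF ν (box d n) / (n : ℝ) ^ d) + Real.log 2 / (n : ℝ) ^ d) atTop
      (𝓝 (t * hent μ + (1 - t) * hent ν)) := by
    simpa using hlow.add hlog
  refine tendsto_nhds_unique hc ?_
  refine tendsto_of_tendsto_of_tendsto_of_le_of_le hlow hup (fun n => ?_) (fun n => ?_)
  · have h := HF_mix_ge t h0 h1 μ ν (box d n)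
    have h2 := div_le_div_of_nonneg_right h (by positivity : (0 : ℝ) ≤ (n : ℝ) ^ d)
    refine le_trans (le_of_eq ?_) h2
    ring
  · have h := HF_mix_le t h0 h1 μ ν (box d n)
    have h2 := div_le_div_of_nonneg_right h (by positivity : (0 : ℝ) ≤ (n : ℝ) ^ d)
    refine le_trans h2 (le_of_eq ?_)
    ring

theorem measurable_c1 : Measurable (c1 : (V d → A × A) → (V d → A)) := by
  refine measurable_pi_iff.2 fun x => ?_
  exact measurable_fst.comp (measurable_pi_apply x)

theorem measurable_c2 : Measurable (c2 : (V d → A × A) → (V d → A)) := by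
  refine measurable_pi_iff.2 fun x => ?_
  exact measurable_snd.comp (measurable_pi_apply x)

theorem hent_pair_le (m : Measure (V d → A × A)) [IsProbabilityMeasure m]
    (hm : ∀ v, m.map (shift v) = m) : hent m ≤ hent (m.map c1) + hent (m.map c2) := by
  have hP1 : IsProbabilityMeasure (m.map c1) :=
    Measure.isProbabilityMeasure_map measurable_c1.aemeasurable
  have hP2 : IsProbabilityMeasure (m.map c2) :=
    Measure.isProbabilityMeasure_map measurable_c2.aemeasurable
  have hs1 : ∀ v, (m.map c1).map (shift v) = m.map c1 := by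
    intro v
    rw [Measure.map_map (measurable_shiftE v) measurable_c1]
    have h : (shift v ∘ c1 : (V d → A × A) → (V d → A)) = c1 ∘ shift v := rfl
    rw [h, ← Measure.map_map measurable_c1 (measurable_shiftE v), hm]
  have hs2 : ∀ v, (m.map c2).map (shift v) = m.map c2 := by
    intro v
    rw [Measure.map_map (measurable_shiftE v) measurable_c2]
    have h : (shift v ∘ c2 : (V d → A × A) → (V d → A)) = c2 ∘ shift v := rfl
    rw [h, ← Measure.map_map measurable_c2 (measurable_shiftE v), hm]
  refine le_of_tendsto_of_tendsto' (hent_tendsto m hm)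
    ((hent_tendsto (m.map c1) hs1).add (hent_tendsto (m.map c2) hs2)) fun n => ?_
  rw [← add_div]
  refine div_le_div_of_nonneg_right ?_ (by positivity)
  rw [HF_eq_ent, HF_eq_ent, HF_eq_ent, ent_map m c1 measurable_c1 _ (measurable_restr _),
    ent_map m c2 measurable_c2 _ (measurable_restr _)]
  exact ent_decode2 m _ _ ((measurable_restr (box d n)).comp measurable_c1) _
    ((measurable_restr (box d n)).comp measurable_c2)
    (fun p x => (p.1 x, p.2 x)) (Eventually.of_forall fun ω => rfl)

private theorem measurable_pr : Measurable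
    (fun (p : (V d → A) × (V d → A)) (x : V d) => (p.1 x, p.2 x)) := by
  refine measurable_pi_iff.2 fun x => ?_
  exact ((measurable_pi_apply x).comp measurable_fst).prodMk
    ((measurable_pi_apply x).comp measurable_snd)

theorem pairLaw_prob (μ ν : Measure (V d → A)) [IsProbabilityMeasure μ]
    [IsProbabilityMeasure ν] : IsProbabilityMeasure (pairLaw μ ν) :=
  Measure.isProbabilityMeasure_map measurable_pr.aemeasurable

theorem pairLaw_shift (μ ν : Measure (V d → A)) [IsProbabilityMeasure μ]
    [IsProbabilityMeasure ν] (hμ : ∀ v, μ.map (shift v) = μ) (hν : ∀ v, ν.map (shift v) = ν)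
    (v : V d) : (pairLaw μ ν).map (shift v) = pairLaw μ ν := by
  unfold pairLaw
  rw [Measure.map_map (measurable_shiftE v) measurable_pr]
  have h : (shift v ∘ fun (p : (V d → A) × (V d → A)) (x : V d) => (p.1 x, p.2 x)) =
      (fun (p : (V d → A) × (V d → A)) (x : V d) => (p.1 x, p.2 x)) ∘
        Prod.map (shift v) (shift v) := rfl
  rw [h, ← Measure.map_map measurable_pr
    ((measurable_shiftE v).prodMap (measurable_shiftE v)),
    ← Measure.map_prod_map _ _ (measurable_shiftE v) (measurable_shiftE v), hμ, hν]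

theorem pairLaw_c (μ ν : Measure (V d → A)) [IsProbabilityMeasure μ]
    [IsProbabilityMeasure ν] : (pairLaw μ ν).map c1 = μ ∧ (pairLaw μ ν).map c2 = ν := by
  unfold pairLaw
  constructor
  · rw [Measure.map_map measurable_c1 measurable_pr]
    have h : (c1 ∘ fun (p : (V d → A) × (V d → A)) (x : V d) => (p.1 x, p.2 x)) = Prod.fst := rfl
    rw [h, Measure.map_fst_prod, measure_univ, one_smul]
  · rw [Measure.map_map measurable_c2 measurable_pr]
    have h : (c2 ∘ fun (p : (V d → A) × (V d → A)) (x : V d) => (p.1 x, p.2 x)) = Prod.snd := rfl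
    rw [h, Measure.map_snd_prod, measure_univ, one_smul]

private theorem HF_pairLaw (μ ν : Measure (V d → A)) [IsProbabilityMeasure μ]
    [IsProbabilityMeasure ν] (F : Finset (V d)) :
    HF (pairLaw μ ν) F = HF μ F + HF ν F := by
  rw [HF_eq_ent, HF_eq_ent, HF_eq_ent]
  unfold pairLaw
  rw [ent_map _ _ measurable_pr _ (measurable_restr _),
    ← ent_prod μ ν _ (measurable_restr F) _ (measurable_restr F)]
  have hX : Measurable (fun p : (V d → A) × (V d → A) =>
      ((fun x : F => p.1 x), (fun x : F => p.2 x))) :=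
    ((measurable_restr F).comp measurable_fst).prodMk ((measurable_restr F).comp measurable_snd)
  apply le_antisymm
  · exact ent_comp_le (μ.prod ν) (fun p => ((fun x : F => p.1 x), (fun x : F => p.2 x))) hX
      (fun (q : (F → A) × (F → A)) (x : F) => (q.1 x, q.2 x))
  · exact ent_comp_le (μ.prod ν) _ ((measurable_restr F).comp measurable_pr)
      (fun (q : F → A × A) => ((fun x => (q x).1), (fun x => (q x).2)))

theorem hent_pairLaw (μ ν : Measure (V d → A)) [IsProbabilityMeasure μ]
    [IsProbabilityMeasure ν] (hμ : ∀ v, μ.map (shift v) = μ) (hν : ∀ v, ν.map (shift v) = ν) :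
    hent (pairLaw μ ν) = hent μ + hent ν := by
  have hP : IsProbabilityMeasure (pairLaw μ ν) := pairLaw_prob μ ν
  refine tendsto_nhds_unique (hent_tendsto (pairLaw μ ν) (pairLaw_shift μ ν hμ hν)) ?_
  refine ((hent_tendsto μ hμ).add (hent_tendsto ν hν)).congr fun n => ?_
  rw [← add_div, HF_pairLaw]

end Helper15.DE
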