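import Pool.Agent.Helper10.DE.ET.Hent

/-!
# DE I.6  Upper semicontinuity

`Real.negMulLog` is continuous, so `HF (μ n) F → HF ν F` for every `F`.  If `c ≤ hent (μ n)` for all
`n`, then `c ≤ HF (μ n) (box d (k+1)) / (k+1)^d` for all `n, k`; let `n → ∞`, then `le_ciInf` over `k`.
-/

noncomputable section

open MeasureTheory Filter Topology

namespace Helper15.DE

variable {d : ℕ} {A : Type} [Fintype A] [MeasurableSpace A] [MeasurableSingletonClass A]

theorem HF_tendsto (μ : ℕ → Measure (V d → A)) (ν : Measure (V d → A)) (h : CylTo μ ν)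
    (F : Finset (V d)) : Tendsto (fun n => HF (μ n) F) atTop (𝓝 (HF ν F)) := by
  unfold HF
  refine tendsto_finsetSum _ fun a _ => ?_
  exact (Real.continuous_negMulLog.tendsto _).comp (h F a)

theorem hent_usc (μ : ℕ → Measure (V d → A)) (ν : Measure (V d → A))
    (hμ : ∀ n, IsProbabilityMeasure (μ n)) (hν : IsProbabilityMeasure ν) (h : CylTo μ ν)
    (c : ℕ → ℝ) (c₀ : ℝ) (hc : Tendsto c atTop (𝓝 c₀)) (hle : ∀ n, c n ≤ hent (μ n)) :
    c₀ ≤ hent ν := by
  unfold hent
  refine le_ciInf fun k => ?_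
  refine le_of_tendsto_of_tendsto' hc ((HF_tendsto μ ν h (box d (k + 1))).div_const _) fun n => ?_
  refine (hle n).trans ?_
  have := hμ n
  have h1 := hent_le (μ n) (k + 1) (by omega)
  push_cast at h1
  exact h1

end Helper15.DE
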