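import Pool.Agent.Helper10.DE.ET.Hent

/-!
# DE I.7  Averaging a `K Z^d`-invariant measure

`avg K m = K^(-d) ∑_{v ∈ [0,K)^d} m ∘ (shift v)⁻¹`.
* `avg_shift`: for a unit vector `ev`: `∑_{v ∈ box} m.map (shift (v + e_i))`: the face `v i = K` is the
  face `v i = 0` shifted by `K e_i`; so `avg` is invariant under all `shift e_i`, `shift (-e_i)`,
  hence under all shifts.  (Or: for every `w`, `v ↦ (v + w) mod K` is a bijection of the box and
  `m.map (shift (v + w))` depends only on `(v + w) mod K`.)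
* `avg_hent`: for `n ≥ 1`, `N = (n + 1) K`, `v ∈ box d K`:
  `HF (m.map (shift v)) (box d N) = HF m (box d N + v) ≥ HF m (box d (n K) + (K, ..., K))
   = HF m (box d (n K)) ≥ (n K)^d h`, as `box d (n K) + (K,..,K) ⊆ box d N + v`.  By `ent_avg_ge`
  `HF (avg K m) (box d N) ≥ (n K)^d h`; divide by `N^d = ((n + 1) K)^d`, `n → ∞`, `hent_tendsto`.
-/

noncomputable section

open MeasureTheory Filter Topology

namespace Helper15.DE

variable {d : ℕ} {A : Type} [Fintype A] [MeasurableSpace A] [MeasurableSingletonClass A]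

namespace AvgAux

theorem shift_shift {d : ℕ} {A : Type} (u v : V d) (ω : V d → A) :
    shift v (shift u ω) = shift (v + u) ω := by
  funext x
  simp only [shift, add_assoc]

/-- the shift as a measurable equivalence -/
def eqv {d : ℕ} {A : Type} [MeasurableSpace A] (v : V d) : (V d → A) ≃ᵐ (V d → A) where
  toFun := shift v
  invFun := shift (-v)
  left_inv := fun ω => by
    rw [shift_shift, neg_add_cancel]
    funext x
    simp [shift]
  right_inv := fun ω => by
    rw [shift_shift, add_neg_cancel]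
    funext x
    simp [shift]
  measurable_toFun := measurable_pi_lambda _ fun _ => measurable_pi_apply _
  measurable_invFun := measurable_pi_lambda _ fun _ => measurable_pi_apply _

theorem map_map_shift {d : ℕ} {A : Type} [MeasurableSpace A] (m : Measure (V d → A))
    (u v : V d) : (m.map (shift u)).map (shift v) = m.map (shift (v + u)) := by
  have h : Measurable (shift v : (V d → A) → (V d → A)) := (eqv v).measurable
  have h' : Measurable (shift u : (V d → A) → (V d → A)) := (eqv u).measurable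
  rw [Measure.map_map h h']
  congr 1
  funext ω
  exact shift_shift u v ω

theorem mem_box {d n : ℕ} (x : V d) : x ∈ box d n ↔ ∀ i, 0 ≤ x i ∧ x i < (n : ℤ) := by
  simp only [box, Fintype.mem_piFinset, Finset.mem_Ico]

/-- reduction modulo the period -/
def rd {d : ℕ} (K : ℕ) (x : V d) : V d := fun i => x i % (K : ℤ)

theorem rd_mem {d K : ℕ} (hK : 1 ≤ K) (x : V d) : rd K x ∈ box d K := by
  rw [mem_box]
  intro i
  exact ⟨Int.emod_nonneg _ (by omega), Int.emod_lt_of_pos _ (by omega)⟩

theorem sum_per {d K : ℕ} (hK : 1 ≤ K) {M : Type*} [AddCommMonoid M] (f : V d → M)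
    (hf : ∀ x u : V d, f (x + (K : ℤ) • u) = f x) (w : V d) :
    ∑ x ∈ box d K, f (w + x) = ∑ x ∈ box d K, f x := by
  have hrd : ∀ x : V d, f (rd K x) = f x := by
    intro x
    have h1 : x = rd K x + (K : ℤ) • (fun i => x i / (K : ℤ)) := by
      funext i
      simp only [rd, Pi.add_apply, Pi.smul_apply, smul_eq_mul]
      exact (Int.emod_add_mul_ediv (x i) K).symm
    have h2 := hf (rd K x) (fun i => x i / (K : ℤ))
    rw [← h1] at h2
    exact h2.symm
  refine Finset.sum_bij' (fun x _ => rd K (w + x)) (fun x _ => rd K (x - w)) ?_ ?_ ?_ ?_ ?_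
  · intro x _
    exact rd_mem hK _
  · intro x _
    exact rd_mem hK _
  · intro x hx
    rw [mem_box] at hx
    funext i
    simp only [rd, Pi.sub_apply, Pi.add_apply]
    rw [Int.emod_sub_emod, add_sub_cancel_left]
    exact Int.emod_eq_of_lt (hx i).1 (hx i).2
  · intro x hx
    rw [mem_box] at hx
    funext i
    simp only [rd, Pi.sub_apply, Pi.add_apply]
    rw [Int.add_emod_emod, add_sub_cancel]
    exact Int.emod_eq_of_lt (hx i).1 (hx i).2
  · intro x _
    exact (hrd (w + x)).symm

theorem coef {d K : ℕ} : ((K : ENNReal) ^ d)⁻¹ = (((box d K).card : ℕ) : ENNReal)⁻¹ := by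
  rw [card_box]
  push_cast
  rfl

end AvgAux

open AvgAux

theorem avg_prob (K : ℕ) (hK : 1 ≤ K) (m : Measure (V d → A)) [IsProbabilityMeasure m] :
    IsProbabilityMeasure (avg K m) := by
  constructor
  rw [avg, coef, Measure.smul_apply, Measure.finsetSum_apply]
  have h1 : ∀ v ∈ box d K, (m.map (shift v)) Set.univ = 1 := by
    intro v _
    have := Measure.isProbabilityMeasure_map (μ := m) (measurable_shiftE v).aemeasurable
    exact measure_univ
  rw [Finset.sum_congr rfl h1, Finset.sum_const, nsmul_eq_mul, mul_one, smul_eq_mul]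
  refine ENNReal.inv_mul_cancel ?_ (ENNReal.natCast_ne_top _)
  rw [card_box]
  have h2 : 0 < K ^ d := pow_pos (by omega) d
  exact_mod_cast h2.ne'

theorem avg_shift (K : ℕ) (hK : 1 ≤ K) (m : Measure (V d → A)) [IsProbabilityMeasure m]
    (hm : ∀ u : V d, m.map (shift ((K : ℤ) • u)) = m) (v : V d) :
    (avg K m).map (shift v) = avg K m := by
  have hper : ∀ x u : V d, m.map (shift (x + (K : ℤ) • u)) = m.map (shift x) := by
    intro x u
    rw [← map_map_shift, hm]
  have h := sum_per hK (fun x : V d => m.map (shift x)) hper v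
  have h2 : (∑ x ∈ box d K, m.map (shift x)).map (shift v) =
      ∑ x ∈ box d K, m.map (shift (v + x)) := by
    ext s hs
    rw [Measure.map_apply (measurable_shiftE v) hs, Measure.finsetSum_apply,
      Measure.finsetSum_apply]
    refine Finset.sum_congr rfl fun x _ => ?_
    rw [← map_map_shift, Measure.map_apply (measurable_shiftE v) hs]
  rw [avg, Measure.map_smul, h2, h]

theorem avg_supp (K : ℕ) (hK : 1 ≤ K) (m : Measure (V d → A)) [IsProbabilityMeasure m]
    (C : Set (V d → A)) (hC : ShiftC C) (h : ∀ᵐ ω ∂m, ω ∈ C) : ∀ᵐ ω ∂(avg K m), ω ∈ C := by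
  rw [ae_iff] at h ⊢
  rw [avg, Measure.smul_apply, Measure.finsetSum_apply]
  have h1 : ∀ v ∈ box d K, (m.map (shift v)) {ω | ω ∉ C} = 0 := by
    intro v _
    have h2 : (m.map (shift v)) {ω | ω ∉ C} = m ((eqv v : (V d → A) ≃ᵐ (V d → A)) ⁻¹' {ω | ω ∉ C}) :=
      (eqv v : (V d → A) ≃ᵐ (V d → A)).map_apply _
    rw [h2]
    refine measure_mono_null ?_ h
    intro ω hω hω'
    exact hω (hC v ω hω')
  rw [Finset.sum_eq_zero h1, smul_zero]

theorem avg_mean (K : ℕ) (hK : 1 ≤ K) (m : Measure (V d → A)) [IsProbabilityMeasure m]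
    {k : ℕ} (c : A → Fin k → ℝ) (i : Fin k) :
    mean c (avg K m) i = (∫ ω, ∑ v ∈ box d K, c (ω v) i ∂m) / (K : ℝ) ^ d := by
  have hint : ∀ (P : Measure (V d → A)) (_ : IsProbabilityMeasure P) (x : V d),
      Integrable (fun ω : V d → A => c (ω x) i) P := by
    intro P _ x
    have hmeas : Measurable fun a : A => c a i := Measurable.of_discrete
    refine Integrable.of_bound (hmeas.comp (measurable_pi_apply x)).aestronglyMeasurable
      (∑ a, |c a i|) ?_
    refine Filter.Eventually.of_forall fun ω => ?_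
    rw [Real.norm_eq_abs]
    exact Finset.single_le_sum (f := fun a => |c a i|) (fun a _ => abs_nonneg _)
      (Finset.mem_univ (ω x))
  have hP : ∀ v : V d, IsProbabilityMeasure (m.map (shift v)) := fun v =>
    Measure.isProbabilityMeasure_map (measurable_shiftE v).aemeasurable
  rw [mean, avg, integral_smul_measure, integral_finsetSum_measure
    (fun v _ => hint _ (hP v) 0), integral_finsetSum _ (fun v _ => hint m inferInstance v)]
  have h1 : ∀ v ∈ box d K, ∫ ω, c (ω 0) i ∂(m.map (shift v)) = ∫ ω, c (ω v) i ∂m := by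
    intro v _
    have h2 : ∫ ω, c (ω 0) i ∂(m.map (shift v)) =
        ∫ ω, (fun ω' : V d → A => c (ω' 0) i) ((eqv v : (V d → A) ≃ᵐ (V d → A)) ω) ∂m :=
      integral_map_equiv (eqv v : (V d → A) ≃ᵐ (V d → A)) _
    rw [h2]
    refine integral_congr_ae (Filter.Eventually.of_forall fun ω => ?_)
    change c (ω (0 + v)) i = c (ω v) i
    rw [zero_add]
  rw [Finset.sum_congr rfl h1, ENNReal.toReal_inv, ENNReal.toReal_pow, ENNReal.toReal_natCast,
    smul_eq_mul, div_eq_inv_mul]

theorem avg_hent (K : ℕ) (hK : 1 ≤ K) (m : Measure (V d → A)) [IsProbabilityMeasure m]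
    (hm : ∀ u : V d, m.map (shift ((K : ℤ) • u)) = m) (h : ℝ)
    (hh : ∀ n : ℕ, 1 ≤ n → ((n * K : ℕ) : ℝ) ^ d * h ≤ HF m (box d (n * K))) :
    h ≤ hent (avg K m) := by
  classical
  have hprob := avg_prob K hK m
  have hlim := hent_tendsto (avg K m) (avg_shift K hK m hm)
  have hcard : 0 < K ^ d := pow_pos (by omega) d
  have hKr : (0 : ℝ) < K := by exact_mod_cast (show 0 < K by omega)
  -- lower bound for each shifted measure
  have hv : ∀ n : ℕ, 1 ≤ n → ∀ v ∈ box d K,
      ((n * K : ℕ) : ℝ) ^ d * h ≤ HF (m.map (shift v)) (box d ((n + 1) * K)) := by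
    intro n hn v hv
    rw [mem_box] at hv
    have h1 : HF m (box d (n * K)) = HF m ((box d (n * K)).image fun x =>
        x + (K : ℤ) • (fun _ => (1 : ℤ) : V d)) := by
      rw [← HF_shift, hm]
    rw [HF_shift]
    refine (hh n hn).trans ?_
    rw [h1]
    refine HF_mono m _ _ ?_
    intro y hy
    rw [Finset.mem_image] at hy ⊢
    obtain ⟨x, hx, rfl⟩ := hy
    rw [mem_box] at hx
    refine ⟨x + (K : ℤ) • (fun _ => (1 : ℤ) : V d) - v, ?_, by rw [sub_add_cancel]⟩
    rw [mem_box]
    intro i
    have h2 := hx i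
    have h3 := hv i
    simp only [Pi.sub_apply, Pi.add_apply, Pi.smul_apply, smul_eq_mul, mul_one]
    have h4 : (((n + 1) * K : ℕ) : ℤ) = ((n * K : ℕ) : ℤ) + K := by
      push_cast; ring
    rw [h4]
    omega
  have hN : ∀ n : ℕ, 1 ≤ n →
      ((n * K : ℕ) : ℝ) ^ d * h ≤ HF (avg K m) (box d ((n + 1) * K)) := by
    intro n hn
    have hne : (box d K).Nonempty := by
      rw [← Finset.card_pos, card_box]
      exact hcard
    have h1 := ent_avg_ge (box d K) hne (fun v : V d => m.map (shift v))
      (fun v _ => Measure.isProbabilityMeasure_map (measurable_shiftE v).aemeasurable)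
      (fun (ω : V d → A) (x : box d ((n + 1) * K)) => ω x)
    have h2 : HF (avg K m) (box d ((n + 1) * K)) =
        ent (((box d K).card : ENNReal)⁻¹ • ∑ v ∈ box d K, m.map (shift v))
          (fun (ω : V d → A) (x : box d ((n + 1) * K)) => ω x) := by
      rw [HF_eq_ent, avg, coef]
    rw [h2]
    refine le_trans ?_ h1
    have hc : (0 : ℝ) < (box d K).card := by exact_mod_cast hne.card_pos
    rw [le_div_iff₀ hc]
    have h3 : ∑ v ∈ box d K, ((n * K : ℕ) : ℝ) ^ d * h ≤ ∑ v ∈ box d K,
        ent (m.map (shift v)) (fun (ω : V d → A) (x : box d ((n + 1) * K)) => ω x) := by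
      refine Finset.sum_le_sum fun v hv' => ?_
      rw [← HF_eq_ent]
      exact hv n hn v hv'
    rw [Finset.sum_const, nsmul_eq_mul] at h3
    linarith
  -- pass to the limit
  have hsub : Tendsto (fun n : ℕ => (n + 1) * K) atTop atTop := by
    refine tendsto_atTop_mono (fun n => ?_) tendsto_id
    simp only [id]
    nlinarith
  have hlim2 := hlim.comp hsub
  have hratio : Tendsto (fun n : ℕ => ((n : ℝ) / (n + 1)) ^ d * h) atTop (𝓝 h) := by
    have h1 : Tendsto (fun n : ℕ => (n : ℝ) / (n + 1)) atTop (𝓝 1) :=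
      tendsto_natCast_div_add_atTop 1
    have h2 := (h1.pow d).mul_const h
    rw [one_pow, one_mul] at h2
    exact h2
  refine le_of_tendsto_of_tendsto hratio hlim2 ?_
  filter_upwards [eventually_ge_atTop 1] with n hn
  simp only [Function.comp_apply]
  have h1 := hN n hn
  have hpos : (0 : ℝ) < (((n + 1) * K : ℕ) : ℝ) ^ d := by
    have : 0 < (n + 1) * K := by positivity
    positivity
  rw [le_div_iff₀ hpos]
  refine le_trans (le_of_eq ?_) h1
  have h2 : ((n : ℝ) / (n + 1)) * (((n + 1) * K : ℕ) : ℝ) = ((n * K : ℕ) : ℝ) := by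
    push_cast
    field_simp
  calc ((n : ℝ) / (n + 1)) ^ d * h * (((n + 1) * K : ℕ) : ℝ) ^ d
      = (((n : ℝ) / (n + 1)) * (((n + 1) * K : ℕ) : ℝ)) ^ d * h := by rw [mul_pow]; ring
    _ = ((n * K : ℕ) : ℝ) ^ d * h := by rw [h2]

end Helper15.DE
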