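import Pool.Agent.Helper15.DE.Defs

/-!
# DE I, III, IV: definitions for entropy, compactness, variational principle
-/

noncomputable section

open MeasureTheory Filter Topology

namespace Helper15.DE

/-- Shannon entropy of a finite valued function. -/
def ent {Ω α : Type*} [MeasurableSpace Ω] [Fintype α] (P : Measure Ω) (X : Ω → α) : ℝ :=
  ∑ a, Real.negMulLog (P.real (X ⁻¹' {a}))

/-- The mixture `t μ + (1 - t) ν`. -/
def mix {Ω : Type*} [MeasurableSpace Ω] (t : ℝ) (μ ν : Measure Ω) : Measure Ω :=
  ENNReal.ofReal t • μ + ENNReal.ofReal (1 - t) • ν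

variable {d : ℕ} {A : Type}

/-- The law of an independent pair. -/
def pairLaw [MeasurableSpace A] (μ ν : Measure (V d → A)) : Measure (V d → A × A) :=
  (μ.prod ν).map fun p x => (p.1 x, p.2 x)

/-- `C` is closed for the product topology (of the discrete topologies). -/
def ClosedC (C : Set (V d → A)) : Prop :=
  ∀ ω, ω ∉ C → ∃ F : Finset (V d), ∀ ω', (∀ x ∈ F, ω' x = ω x) → ω' ∉ C

/-- `C` is invariant under all shifts. -/
def ShiftC (C : Set (V d → A)) : Prop := ∀ (v : V d) (ω), ω ∈ C → shift v ω ∈ C

/-- Convergence of the probabilities of all cylinders. -/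
def CylTo [MeasurableSpace A] (μ : ℕ → Measure (V d → A)) (ν : Measure (V d → A)) : Prop :=
  ∀ (F : Finset (V d)) (a : F → A),
    Tendsto (fun n => (μ n).real {ω | ∀ x : F, ω x = a x}) atTop
      (𝓝 (ν.real {ω | ∀ x : F, ω x = a x}))

/-- The average of the shifts of `m` over the box of side `K`. -/
def avg [MeasurableSpace A] (K : ℕ) (m : Measure (V d → A)) : Measure (V d → A) :=
  ((K : ENNReal) ^ d)⁻¹ • ∑ v ∈ box d K, m.map (shift v)

/-- The cell (of side `K`) of a site. -/
def cell (K : ℕ) (x : V d) : V d := fun i => x i / (K : ℤ)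

open Classical in
/-- Apply the exchange of the patterns `a`, `b` in all windows `F + K z` with `κ z = true`
(`F` is meant to be inside `box d K`). -/
def sw (K : ℕ) (F : Finset (V d)) (a b : V d → A) (κ : V d → Bool) (ω : V d → A) : V d → A :=
  fun x =>
    if κ (cell K x) = true ∧ x - (K : ℤ) • cell K x ∈ F then
      (if ∀ y ∈ F, ω (y + (K : ℤ) • cell K x) = a y then b (x - (K : ℤ) • cell K x)
       else if ∀ y ∈ F, ω (y + (K : ℤ) • cell K x) = b y then a (x - (K : ℤ) • cell K x)
       else ω x)
    else ω x

/-- The patterns `a` and `b` on `F` have the same images, injectively. -/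
def Same (st : A → V d) (F : Finset (V d)) (a b : V d → A) : Prop :=
  Set.InjOn (mv st a) F ∧ Set.InjOn (mv st b) F ∧ F.image (mv st a) = F.image (mv st b)

end Helper15.DE
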