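import Pool.Agent.Helper10.DE.ET.Defs

/-!
# DE I.1  Shannon entropy of finite valued functions, basic inequalities

Write `η = Real.negMulLog`, `p a = P.real (X ⁻¹' {a})`.
* `ent_nonneg`: `0 ≤ p a ≤ 1`.
* `ent_map`: preimages.
* `ent_le_log_card`: Jensen for the concave `η` (`Real.concaveOn_negMulLog`), `∑ p a = 1`.
* `ent_comp_le`: `P (g ∘ X = b) = ∑_{a ∈ g⁻¹ b} p a` and `η (∑ x_i) ≤ ∑ η (x_i)` for `x_i ≥ 0`
  (`η(x + y) ≤ η x + η y` because `log (x + y) ≥ log x, log y`).
* `ent_pair_le`: `p a = ∑_b p(a,b)`, `q b = ∑_a p(a,b)`; `H(X) + H(Y) - H(X,Y)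
  = -∑ p(a,b) log (p a q b / p(a,b)) ≥ -∑_{p(a,b) > 0} (p a q b - p(a,b)) ≥ 0` by `log x ≤ x - 1`.
* `ent_decode`: `ent X ≤ ent (Y, Z) ≤ ent Y + ent Z ≤ ent Y + log |γ|`.
* `ent_prod`: `(P.prod Q)(X = a, Y = b) = p a q b`, `Real.negMulLog_mul`.
-/

noncomputable section

open MeasureTheory Filter Topology

namespace Helper15.DE

variable {Ω Ω' α β γ : Type*} [MeasurableSpace Ω] [MeasurableSpace Ω']
  [Fintype α] [MeasurableSpace α] [MeasurableSingletonClass α]
  [Fintype β] [MeasurableSpace β] [MeasurableSingletonClass β]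
  [Fintype γ] [MeasurableSpace γ] [MeasurableSingletonClass γ]

namespace EntAux

theorem nml_add {x y : ℝ} (hx : 0 ≤ x) (hy : 0 ≤ y) :
    Real.negMulLog (x + y) ≤ Real.negMulLog x + Real.negMulLog y := by
  rcases hx.eq_or_lt with rfl | hx'
  · simp
  rcases hy.eq_or_lt with rfl | hy'
  · simp
  have h1 : Real.log x ≤ Real.log (x + y) := Real.log_le_log hx' (by linarith)
  have h2 : Real.log y ≤ Real.log (x + y) := Real.log_le_log hy' (by linarith)
  simp only [Real.negMulLog]
  nlinarith [mul_le_mul_of_nonneg_left h1 hx, mul_le_mul_of_nonneg_left h2 hy]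

theorem nml_sum {ι : Type*} (s : Finset ι) (f : ι → ℝ) (hf : ∀ i ∈ s, 0 ≤ f i) :
    Real.negMulLog (∑ i ∈ s, f i) ≤ ∑ i ∈ s, Real.negMulLog (f i) := by
  classical
  induction s using Finset.induction_on with
  | empty => simp
  | insert a s ha ih =>
    rw [Finset.sum_insert ha, Finset.sum_insert ha]
    have h1 := nml_add (hf a (Finset.mem_insert_self a s))
      (Finset.sum_nonneg fun i hi => hf i (Finset.mem_insert_of_mem hi))
    have h2 := ih fun i hi => hf i (Finset.mem_insert_of_mem hi)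
    linarith

open Classical in
theorem fiber {Ω α β : Type*} [MeasurableSpace Ω] [Fintype α] [MeasurableSpace α]
    [MeasurableSingletonClass α] (P : Measure Ω) [IsProbabilityMeasure P] (X : Ω → α)
    (hX : Measurable X) (g : α → β) (b : β) :
    P.real ((g ∘ X) ⁻¹' {b}) = ∑ a with g a = b, P.real (X ⁻¹' {a}) := by
  have h1 : (g ∘ X) ⁻¹' {b} = ⋃ a ∈ Finset.univ.filter (fun a => g a = b), X ⁻¹' {a} := by
    ext ω
    simp
  rw [h1, measureReal_biUnion_finset]
  · intro a _ a' _ haa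
    refine Set.disjoint_left.2 fun ω h2 h3 => haa ?_
    rw [Set.mem_preimage, Set.mem_singleton_iff] at h2 h3
    rw [← h2, ← h3]
  · intro a _
    exact hX (measurableSet_singleton a)

theorem total {Ω α : Type*} [MeasurableSpace Ω] [Fintype α] [MeasurableSpace α]
    [MeasurableSingletonClass α] (P : Measure Ω) [IsProbabilityMeasure P] (X : Ω → α)
    (hX : Measurable X) : ∑ a, P.real (X ⁻¹' {a}) = 1 := by
  have h := fiber P X hX (fun _ => ()) ()
  have h1 : ((fun _ : α => ()) ∘ X) ⁻¹' {()} = Set.univ := by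
    ext ω
    simp
  rw [h1, probReal_univ] at h
  rw [h]
  simp

theorem pair_real {α β : Type*} [Fintype α] [Fintype β] (r : α → β → ℝ)
    (hr : ∀ a b, 0 ≤ r a b) (h1 : ∑ a, ∑ b, r a b = 1) :
    ∑ a, ∑ b, Real.negMulLog (r a b) ≤
      ∑ a, Real.negMulLog (∑ b, r a b) + ∑ b, Real.negMulLog (∑ a, r a b) := by
  have hterm : ∀ a b, Real.negMulLog (r a b) ≤
      -(r a b * Real.log (∑ b', r a b')) - r a b * Real.log (∑ a', r a' b)
        + ((∑ b', r a b') * (∑ a', r a' b) - r a b) := by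
    intro a b
    have hp : r a b ≤ ∑ b', r a b' :=
      Finset.single_le_sum (f := fun b' => r a b') (fun b' _ => hr a b') (Finset.mem_univ b)
    have hq : r a b ≤ ∑ a', r a' b :=
      Finset.single_le_sum (f := fun a' => r a' b) (fun a' _ => hr a' b) (Finset.mem_univ a)
    rcases (hr a b).eq_or_lt with h0 | h0
    · rw [← h0]
      simp only [Real.negMulLog_zero, zero_mul, neg_zero, sub_zero, zero_add]
      exact mul_nonneg (Finset.sum_nonneg fun b' _ => hr a b')
        (Finset.sum_nonneg fun a' _ => hr a' b)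
    · have hp0 : 0 < ∑ b', r a b' := lt_of_lt_of_le h0 hp
      have hq0 : 0 < ∑ a', r a' b := lt_of_lt_of_le h0 hq
      set p := ∑ b', r a b'
      set q := ∑ a', r a' b
      have h2 : Real.log (p * q / r a b) ≤ p * q / r a b - 1 :=
        Real.log_le_sub_one_of_pos (by positivity)
      rw [Real.log_div (by positivity) h0.ne', Real.log_mul hp0.ne' hq0.ne'] at h2
      have h3 := mul_le_mul_of_nonneg_left h2 h0.le
      have h4 : r a b * (p * q / r a b - 1) = p * q - r a b := by
        field_simp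
      rw [h4] at h3
      simp only [Real.negMulLog]
      linarith
  have h2 : ∑ a, ∑ b, Real.negMulLog (r a b) ≤
      ∑ a, ∑ b, (-(r a b * Real.log (∑ b', r a b')) - r a b * Real.log (∑ a', r a' b)
        + ((∑ b', r a b') * (∑ a', r a' b) - r a b)) :=
    Finset.sum_le_sum fun a _ => Finset.sum_le_sum fun b _ => hterm a b
  have hA : ∑ a, ∑ b, -(r a b * Real.log (∑ b', r a b'))
      = ∑ a, Real.negMulLog (∑ b, r a b) := by
    refine Finset.sum_congr rfl fun a _ => ?_
    rw [Finset.sum_neg_distrib, ← Finset.sum_mul, Real.negMulLog, neg_mul]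
  have hB : ∑ a, ∑ b, r a b * Real.log (∑ a', r a' b)
      = - ∑ b, Real.negMulLog (∑ a, r a b) := by
    rw [Finset.sum_comm, ← Finset.sum_neg_distrib]
    refine Finset.sum_congr rfl fun b _ => ?_
    rw [← Finset.sum_mul, Real.negMulLog, neg_mul, neg_neg]
  have hC : ∑ a, ∑ b, (∑ b', r a b') * (∑ a', r a' b) = 1 := by
    have h3 : ∀ a, ∑ b, (∑ b', r a b') * (∑ a', r a' b) = ∑ b', r a b' := by
      intro a
      rw [← Finset.mul_sum, Finset.sum_comm, h1, mul_one]
    rw [Finset.sum_congr rfl fun a _ => h3 a, h1]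
  have hsplit : ∑ a, ∑ b, (-(r a b * Real.log (∑ b', r a b'))
        - r a b * Real.log (∑ a', r a' b) + ((∑ b', r a b') * (∑ a', r a' b) - r a b))
      = ∑ a, Real.negMulLog (∑ b, r a b) + ∑ b, Real.negMulLog (∑ a, r a b) := by
    simp only [Finset.sum_add_distrib, Finset.sum_sub_distrib]
    rw [hA, hB, hC, h1]
    ring
  rw [← hsplit]
  exact h2

end EntAux

theorem ent_nonneg (P : Measure Ω) [IsProbabilityMeasure P] (X : Ω → α) : 0 ≤ ent P X :=
  Finset.sum_nonneg fun _ _ => Real.negMulLog_nonneg measureReal_nonneg measureReal_le_one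

theorem ent_map (P : Measure Ω) (f : Ω → Ω') (hf : Measurable f) (X : Ω' → α)
    (hX : Measurable X) : ent (P.map f) X = ent P (X ∘ f) := by
  unfold ent
  refine Finset.sum_congr rfl fun a _ => ?_
  rw [map_measureReal_apply hf (hX (measurableSet_singleton a))]
  rfl

theorem ent_congr (P : Measure Ω) (X Y : Ω → α) (h : X =ᵐ[P] Y) : ent P X = ent P Y := by
  unfold ent
  refine Finset.sum_congr rfl fun a _ => ?_
  congr 1
  refine measureReal_congr ?_
  filter_upwards [h] with ω hω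
  change (X ω ∈ ({a} : Set α)) = (Y ω ∈ ({a} : Set α))
  rw [hω]

theorem ent_le_log_card (P : Measure Ω) [IsProbabilityMeasure P] (X : Ω → α)
    (hX : Measurable X) : ent P X ≤ Real.log (Fintype.card α) := by
  have hne : Nonempty α := by
    obtain ⟨ω⟩ : Nonempty Ω := nonempty_of_isProbabilityMeasure P
    exact ⟨X ω⟩
  have hn : (0 : ℝ) < Fintype.card α := by exact_mod_cast Fintype.card_pos
  have h := Real.concaveOn_negMulLog.le_map_sum (t := (Finset.univ : Finset α))
    (w := fun _ => (Fintype.card α : ℝ)⁻¹) (p := fun a => P.real (X ⁻¹' {a}))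
    (fun _ _ => by positivity)
    (by rw [Finset.sum_const, Finset.card_univ, nsmul_eq_mul, mul_inv_cancel₀ hn.ne'])
    (fun _ _ => measureReal_nonneg)
  simp only [smul_eq_mul] at h
  rw [← Finset.mul_sum, ← Finset.mul_sum, EntAux.total P X hX, mul_one] at h
  have h2 : Real.negMulLog ((Fintype.card α : ℝ)⁻¹)
      = (Fintype.card α : ℝ)⁻¹ * Real.log (Fintype.card α) := by
    rw [Real.negMulLog, Real.log_inv]
    ring
  rw [h2] at h
  exact le_of_mul_le_mul_left h (by positivity)

theorem ent_comp_le (P : Measure Ω) [IsProbabilityMeasure P] (X : Ω → α) (hX : Measurable X)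
    (g : α → β) : ent P (g ∘ X) ≤ ent P X := by
  classical
  unfold ent
  have h1 : ∀ b, Real.negMulLog (P.real ((g ∘ X) ⁻¹' {b}))
      ≤ ∑ a with g a = b, Real.negMulLog (P.real (X ⁻¹' {a})) := by
    intro b
    rw [EntAux.fiber P X hX g b]
    exact EntAux.nml_sum _ _ fun _ _ => measureReal_nonneg
  refine (Finset.sum_le_sum fun b _ => h1 b).trans (le_of_eq ?_)
  exact Finset.sum_fiberwise _ _ _

theorem ent_pair_le (P : Measure Ω) [IsProbabilityMeasure P] (X : Ω → α) (hX : Measurable X)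
    (Y : Ω → β) (hY : Measurable Y) : ent P (fun ω => (X ω, Y ω)) ≤ ent P X + ent P Y := by
  classical
  have hm : Measurable fun ω => (X ω, Y ω) := hX.prodMk hY
  have hp : ∀ a, P.real (X ⁻¹' {a}) = ∑ b, P.real ((fun ω => (X ω, Y ω)) ⁻¹' {(a, b)}) := by
    intro a
    have h := EntAux.fiber P (fun ω => (X ω, Y ω)) hm Prod.fst a
    have h1 : (Prod.fst ∘ fun ω => (X ω, Y ω)) = X := rfl
    rw [h1] at h
    rw [h, Finset.sum_filter, Fintype.sum_prod_type]
    rw [Finset.sum_eq_single a]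
    · exact Finset.sum_congr rfl fun b _ => by simp
    · intro a' _ ha'
      exact Finset.sum_eq_zero fun b _ => by simp [ha']
    · intro h2
      exact absurd (Finset.mem_univ a) h2
  have hq : ∀ b, P.real (Y ⁻¹' {b}) = ∑ a, P.real ((fun ω => (X ω, Y ω)) ⁻¹' {(a, b)}) := by
    intro b
    have h := EntAux.fiber P (fun ω => (X ω, Y ω)) hm Prod.snd b
    have h1 : (Prod.snd ∘ fun ω => (X ω, Y ω)) = Y := rfl
    rw [h1] at h
    rw [h, Finset.sum_filter, Fintype.sum_prod_type]
    refine Finset.sum_congr rfl fun a _ => ?_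
    rw [Finset.sum_eq_single b]
    · simp
    · intro b' _ hb'
      simp [hb']
    · intro h2
      exact absurd (Finset.mem_univ b) h2
  have h := EntAux.pair_real (fun a b => P.real ((fun ω => (X ω, Y ω)) ⁻¹' {(a, b)}))
    (fun _ _ => measureReal_nonneg) (by
      have h1 := EntAux.total P (fun ω => (X ω, Y ω)) hm
      rwa [Fintype.sum_prod_type] at h1)
  unfold ent
  rw [Fintype.sum_prod_type]
  simp only [hp, hq]
  exact h

theorem ent_decode2 (P : Measure Ω) [IsProbabilityMeasure P] (X : Ω → α) (Y : Ω → β)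
    (hY : Measurable Y) (Z : Ω → γ) (hZ : Measurable Z) (g : β × γ → α)
    (h : ∀ᵐ ω ∂P, X ω = g (Y ω, Z ω)) :
    ent P X ≤ ent P Y + ent P Z := by
  have h1 : ent P X = ent P (g ∘ fun ω => (Y ω, Z ω)) := ent_congr P _ _ h
  rw [h1]
  exact (ent_comp_le P _ (hY.prodMk hZ) g).trans (ent_pair_le P Y hY Z hZ)

theorem ent_decode (P : Measure Ω) [IsProbabilityMeasure P] (X : Ω → α) (Y : Ω → β)
    (hY : Measurable Y) (Z : Ω → γ) (hZ : Measurable Z) (g : β × γ → α)
    (h : ∀ᵐ ω ∂P, X ω = g (Y ω, Z ω)) :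
    ent P X ≤ ent P Y + Real.log (Fintype.card γ) :=
  (ent_decode2 P X Y hY Z hZ g h).trans (by linarith [ent_le_log_card P Z hZ])

theorem ent_prod (P : Measure Ω) [IsProbabilityMeasure P] (Q : Measure Ω')
    [IsProbabilityMeasure Q] (X : Ω → α) (hX : Measurable X) (Y : Ω' → β) (hY : Measurable Y) :
    ent (P.prod Q) (fun p => (X p.1, Y p.2)) = ent P X + ent Q Y := by
  have h1 : ∀ a b, (P.prod Q).real ((fun p : Ω × Ω' => (X p.1, Y p.2)) ⁻¹' {(a, b)})
      = P.real (X ⁻¹' {a}) * Q.real (Y ⁻¹' {b}) := by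
    intro a b
    have h2 : (fun p : Ω × Ω' => (X p.1, Y p.2)) ⁻¹' {(a, b)} = (X ⁻¹' {a}) ×ˢ (Y ⁻¹' {b}) := by
      ext p
      simp [Prod.ext_iff]
    rw [h2, measureReal_prod_prod]
  unfold ent
  rw [Fintype.sum_prod_type]
  simp only [h1, Real.negMulLog_mul, Finset.sum_add_distrib]
  congr 1
  · refine Finset.sum_congr rfl fun a _ => ?_
    rw [← Finset.sum_mul, EntAux.total Q Y hY, one_mul]
  · rw [Finset.sum_comm]
    refine Finset.sum_congr rfl fun b _ => ?_
    rw [← Finset.sum_mul, EntAux.total P X hX, one_mul]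

end Helper15.DE
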