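import Pool.Agent.Helper10.DE.ET.Mix

/-!
# DE I.3  The pattern entropy `HF μ F`

`HF μ F = ent μ (fun ω (x : F) => ω x)`; everything follows from `Ent.lean` and `Mix.lean`:
monotonicity and (sub)additivity by restricting patterns (the pattern on `F ∪ G` is a function of the
pair of patterns), the upper bound `log |F → A| = |F| log |A|`.
-/

noncomputable section

open MeasureTheory Filter Topology

namespace Helper15.DE

variable {d : ℕ} {A : Type} [Fintype A] [MeasurableSpace A] [MeasurableSingletonClass A]

theorem HF_eq_ent (μ : Measure (V d → A)) (F : Finset (V d)) :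
    HF μ F = ent μ (fun (ω : V d → A) (x : F) => ω x) := by
  unfold HF ent
  refine Finset.sum_congr rfl fun a _ => ?_
  have h : {ω : V d → A | ∀ x : F, ω x = a x}
      = (fun (ω : V d → A) (x : F) => ω x) ⁻¹' {a} := by
    ext ω
    simp [funext_iff]
  rw [h]

theorem measurable_restr (F : Finset (V d)) :
    Measurable (fun (ω : V d → A) (x : F) => ω x) :=
  measurable_pi_lambda _ fun _ => measurable_pi_apply _

theorem measurable_shiftE (v : V d) : Measurable (shift v : (V d → A) → (V d → A)) :=
  measurable_pi_lambda _ fun _ => measurable_pi_apply _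

theorem HF_nonneg (μ : Measure (V d → A)) [IsProbabilityMeasure μ] (F : Finset (V d)) :
    0 ≤ HF μ F := by
  rw [HF_eq_ent]
  exact ent_nonneg μ _

theorem HF_le (μ : Measure (V d → A)) [IsProbabilityMeasure μ] (F : Finset (V d)) :
    HF μ F ≤ F.card * Real.log (Fintype.card A) := by
  rw [HF_eq_ent]
  refine (ent_le_log_card μ _ (measurable_restr F)).trans (le_of_eq ?_)
  rw [Fintype.card_fun, Fintype.card_coe, Nat.cast_pow, Real.log_pow]

theorem HF_mono (μ : Measure (V d → A)) [IsProbabilityMeasure μ] (F G : Finset (V d))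
    (h : F ⊆ G) : HF μ F ≤ HF μ G := by
  rw [HF_eq_ent, HF_eq_ent]
  exact ent_comp_le μ (fun (ω : V d → A) (x : G) => ω x) (measurable_restr G)
    (fun (p : G → A) (x : F) => p ⟨x, h x.2⟩)

theorem HF_union_le (μ : Measure (V d → A)) [IsProbabilityMeasure μ] (F G : Finset (V d)) :
    HF μ (F ∪ G) ≤ HF μ F + HF μ G := by
  classical
  rw [HF_eq_ent, HF_eq_ent, HF_eq_ent]
  refine ent_decode2 μ _ (fun (ω : V d → A) (x : F) => ω x) (measurable_restr F)
    (fun (ω : V d → A) (x : G) => ω x) (measurable_restr G)
    (fun p x => if hx : (x : V d) ∈ F then p.1 ⟨x, hx⟩ else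
      p.2 ⟨x, (Finset.mem_union.1 x.2).resolve_left hx⟩) ?_
  refine Filter.Eventually.of_forall fun ω => ?_
  funext x
  by_cases hx : (x : V d) ∈ F
  · simp only [dif_pos hx]
  · simp only [dif_neg hx]

theorem HF_biUnion_le {ι : Type*} (μ : Measure (V d → A)) [IsProbabilityMeasure μ]
    (s : Finset ι) (F : ι → Finset (V d)) :
    HF μ (s.biUnion F) ≤ ∑ i ∈ s, HF μ (F i) := by
  classical
  induction s using Finset.induction_on with
  | empty =>
    have h := HF_le μ (∅ : Finset (V d))
    simpa using h
  | insert a s ha ih =>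
    rw [Finset.biUnion_insert, Finset.sum_insert ha]
    exact (HF_union_le μ _ _).trans (by linarith)

theorem HF_shift (μ : Measure (V d → A)) (v : V d) (F : Finset (V d)) :
    HF (μ.map (shift v)) F = HF μ (F.image fun x => x + v) := by
  classical
  let e : F ≃ (F.image fun x => x + v) :=
    { toFun := fun x => ⟨x + v, Finset.mem_image_of_mem _ x.2⟩
      invFun := fun y => ⟨y - v, by
        obtain ⟨x, hx, hxy⟩ := Finset.mem_image.1 y.2
        rw [← hxy, add_sub_cancel_right]
        exact hx⟩
      left_inv := fun x => by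
        apply Subtype.ext
        simp
      right_inv := fun y => by
        apply Subtype.ext
        simp }
  unfold HF
  refine Fintype.sum_equiv (Equiv.arrowCongr e (Equiv.refl A)) _ _ fun a => ?_
  congr 1
  have hm : MeasurableSet {ω : V d → A | ∀ x : F, ω x = a x} := by
    have h : {ω : V d → A | ∀ x : F, ω x = a x}
        = (fun (ω : V d → A) (x : F) => ω x) ⁻¹' {a} := by
      ext ω
      simp [funext_iff]
    rw [h]
    exact measurable_restr F (measurableSet_singleton a)
  rw [map_measureReal_apply (measurable_shiftE v) hm]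
  congr 1
  ext ω
  simp only [Set.mem_preimage, Set.mem_ofPred_eq, shift, Equiv.arrowCongr_apply,
    Equiv.coe_refl, Function.comp_apply, id_eq]
  constructor
  · intro h y
    have h1 := h (e.symm y)
    have h2 : ((e.symm y : F) : V d) + v = y := by
      have := congrArg Subtype.val (e.apply_symm_apply y)
      exact this
    rw [h2] at h1
    exact h1
  · intro h x
    have h1 := h (e x)
    rw [e.symm_apply_apply] at h1
    exact h1

theorem HF_mix_ge (t : ℝ) (h0 : 0 ≤ t) (h1 : t ≤ 1) (μ ν : Measure (V d → A))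
    [IsProbabilityMeasure μ] [IsProbabilityMeasure ν] (F : Finset (V d)) :
    t * HF μ F + (1 - t) * HF ν F ≤ HF (mix t μ ν) F := by
  rw [HF_eq_ent, HF_eq_ent, HF_eq_ent]
  exact ent_mix_ge t h0 h1 μ ν _

theorem HF_mix_le (t : ℝ) (h0 : 0 ≤ t) (h1 : t ≤ 1) (μ ν : Measure (V d → A))
    [IsProbabilityMeasure μ] [IsProbabilityMeasure ν] (F : Finset (V d)) :
    HF (mix t μ ν) F ≤ t * HF μ F + (1 - t) * HF ν F + Real.log 2 := by
  rw [HF_eq_ent, HF_eq_ent, HF_eq_ent]
  exact ent_mix_le t h0 h1 μ ν _ (measurable_restr F)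

end Helper15.DE
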