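import Pool.Agent.Helper10.DE.ET.HFBasic

/-!
# DE I.4  The specific entropy as a limit

* `hent_le`: the infimum is `≤` every member (bounded below by `0`), `n = (n - 1) + 1`.
* `hent_tendsto`: for fixed `n ≥ 1` and all `N`: `box d N ⊆ ⋃_{z ∈ box d (N/n + 1)} (box d n + n z)`, so
  `HF μ (box d N) ≤ (N/n + 1)^d HF μ (box d n)` by `HF_biUnion_le`, `HF_mono` and invariance; divide by
  `N^d` and let `N → ∞`: `limsup ≤ HF μ (box d n) / n^d` for every `n`; and every term is `≥ hent μ`.
-/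

noncomputable section

open MeasureTheory Filter Topology

namespace Helper15.DE

variable {d : ℕ} {A : Type} [Fintype A] [MeasurableSpace A] [MeasurableSingletonClass A]

theorem card_box (n : ℕ) : (box d n).card = n ^ d := by
  unfold box
  rw [Fintype.card_piFinset]
  simp

namespace HentAux

theorem bddBelow (μ : Measure (V d → A)) [IsProbabilityMeasure μ] :
    BddBelow (Set.range fun n : ℕ => HF μ (box d (n + 1)) / ((n : ℝ) + 1) ^ d) := by
  refine ⟨0, ?_⟩
  rintro _ ⟨n, rfl⟩
  exact div_nonneg (HF_nonneg μ _) (by positivity)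

theorem box_subset (k N : ℕ) (hk : 1 ≤ k) :
    box d N ⊆ (box d (N / k + 1)).biUnion
      (fun z => (box d k).image fun x => x + (k : ℤ) • z) := by
  intro x hx
  have hk0 : (0 : ℤ) < k := by exact_mod_cast hk
  unfold box at hx
  rw [Fintype.mem_piFinset] at hx
  rw [Finset.mem_biUnion]
  refine ⟨fun i => x i / (k : ℤ), ?_, ?_⟩
  · unfold box
    rw [Fintype.mem_piFinset]
    intro i
    have h := Finset.mem_Ico.1 (hx i)
    rw [Finset.mem_Ico]
    refine ⟨Int.ediv_nonneg h.1 hk0.le, ?_⟩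
    have h1 : x i / (k : ℤ) ≤ (N : ℤ) / (k : ℤ) := Int.ediv_le_ediv hk0 h.2.le
    push_cast
    exact Int.lt_add_one_of_le h1
  · rw [Finset.mem_image]
    refine ⟨fun i => x i % (k : ℤ), ?_, ?_⟩
    · unfold box
      rw [Fintype.mem_piFinset]
      intro i
      rw [Finset.mem_Ico]
      exact ⟨Int.emod_nonneg _ hk0.ne', Int.emod_lt_of_pos _ hk0⟩
    · funext i
      simp only [Pi.add_apply, Pi.smul_apply, smul_eq_mul]
      exact Int.emod_add_mul_ediv (x i) k

theorem HF_box_le (μ : Measure (V d → A)) [IsProbabilityMeasure μ]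
    (hμ : ∀ v, μ.map (shift v) = μ) (k N : ℕ) (hk : 1 ≤ k) :
    HF μ (box d N) ≤ ((N / k + 1 : ℕ) : ℝ) ^ d * HF μ (box d k) := by
  classical
  refine (HF_mono μ _ _ (box_subset k N hk)).trans ?_
  refine (HF_biUnion_le μ _ _).trans (le_of_eq ?_)
  have h : ∀ z ∈ box d (N / k + 1),
      HF μ ((box d k).image fun x => x + (k : ℤ) • z) = HF μ (box d k) := by
    intro z _
    rw [← HF_shift, hμ]
  rw [Finset.sum_congr rfl h, Finset.sum_const, card_box, nsmul_eq_mul]
  push_cast
  ring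

end HentAux

theorem hent_le (μ : Measure (V d → A)) [IsProbabilityMeasure μ] (n : ℕ) (hn : 1 ≤ n) :
    hent μ ≤ HF μ (box d n) / (n : ℝ) ^ d := by
  obtain ⟨m, rfl⟩ : ∃ m, n = m + 1 := ⟨n - 1, by omega⟩
  have h := ciInf_le (HentAux.bddBelow μ) m
  unfold hent
  refine h.trans (le_of_eq ?_)
  push_cast
  rfl

theorem hent_nonneg (μ : Measure (V d → A)) [IsProbabilityMeasure μ] : 0 ≤ hent μ := by
  unfold hent
  exact Real.iInf_nonneg fun n => div_nonneg (HF_nonneg μ _) (by positivity)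

theorem hent_le_log (μ : Measure (V d → A)) [IsProbabilityMeasure μ] :
    hent μ ≤ Real.log (Fintype.card A) := by
  refine (hent_le μ 1 le_rfl).trans ?_
  have h := HF_le μ (box d 1)
  rw [card_box] at h
  simpa using h

theorem hent_tendsto (μ : Measure (V d → A)) [IsProbabilityMeasure μ]
    (hμ : ∀ v, μ.map (shift v) = μ) :
    Tendsto (fun n : ℕ => HF μ (box d n) / (n : ℝ) ^ d) atTop (𝓝 (hent μ)) := by
  rw [tendsto_order]
  constructor
  · intro b hb
    filter_upwards [eventually_ge_atTop 1] with n hn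
    exact hb.trans_le (hent_le μ n hn)
  · intro b hb
    obtain ⟨m, hm⟩ := exists_lt_of_ciInf_lt (show (⨅ n : ℕ, HF μ (box d (n + 1)) /
      ((n : ℝ) + 1) ^ d) < b from hb)
    set k : ℕ := m + 1 with hk
    have hk1 : 1 ≤ k := by omega
    have hk0 : (0 : ℝ) < k := by exact_mod_cast hk1
    have hm' : HF μ (box d k) / (k : ℝ) ^ d < b := by
      refine lt_of_eq_of_lt ?_ hm
      rw [hk]
      push_cast
      rfl
    have hlim : Tendsto (fun N : ℕ => (1 + (k : ℝ) / N) ^ d * (HF μ (box d k) / (k : ℝ) ^ d))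
        atTop (𝓝 ((1 + 0) ^ d * (HF μ (box d k) / (k : ℝ) ^ d))) := by
      refine Tendsto.mul_const _ (Tendsto.pow (Tendsto.const_add _ ?_) d)
      exact tendsto_const_div_atTop_nhds_zero_nat _
    rw [add_zero, one_pow, one_mul] at hlim
    have hev := (tendsto_order.1 hlim).2 b hm'
    filter_upwards [hev, eventually_ge_atTop 1] with N hN hN1
    refine lt_of_le_of_lt ?_ hN
    have hN0 : (0 : ℝ) < N := by exact_mod_cast hN1
    have h1 := HentAux.HF_box_le μ hμ k N hk1
    have h2 : ((N / k + 1 : ℕ) : ℝ) ≤ N / k + 1 := by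
      push_cast
      have := @Nat.cast_div_le ℝ _ _ _ N k
      linarith
    have h3 : ((N / k + 1 : ℕ) : ℝ) ^ d ≤ ((N : ℝ) / k + 1) ^ d :=
      pow_le_pow_left₀ (by positivity) h2 d
    have h4 : HF μ (box d N) ≤ ((N : ℝ) / k + 1) ^ d * HF μ (box d k) :=
      h1.trans (mul_le_mul_of_nonneg_right h3 (HF_nonneg μ _))
    rw [div_le_iff₀ (by positivity)]
    refine h4.trans (le_of_eq ?_)
    have h5 : (1 + (k : ℝ) / N) ^ d * (HF μ (box d k) / (k : ℝ) ^ d) * (N : ℝ) ^ d
        = ((1 + (k : ℝ) / N) * N / k) ^ d * HF μ (box d k) := by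
      rw [div_pow, mul_pow]
      ring
    rw [h5]
    congr 2
    field_simp

end Helper15.DE
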