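import Pool.Agent.Helper10.DE.ET.Ent

/-!
# DE I.2  Entropy of mixtures

`η = Real.negMulLog`.  Concavity of `η` gives `ent_mix_ge`, `ent_avg_ge`.  For `ent_mix_le`:
`η(t p + (1 - t) q) ≤ η(t p) + η((1 - t) q) = t η(p) + p η(t) + (1 - t) η(q) + q η(1 - t)`
(`Real.negMulLog_mul`), sum over the values, and `η(t) + η(1 - t) ≤ log 2`
(`Real.binEntropy_le_log_two`).
-/

noncomputable section

open MeasureTheory Filter Topology

namespace Helper15.DE

variable {Ω α : Type*} [MeasurableSpace Ω]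
  [Fintype α] [MeasurableSpace α] [MeasurableSingletonClass α]

theorem mix_prob (t : ℝ) (h0 : 0 ≤ t) (h1 : t ≤ 1) (P Q : Measure Ω) [IsProbabilityMeasure P]
    [IsProbabilityMeasure Q] : IsProbabilityMeasure (mix t P Q) := by
  constructor
  rw [mix, Measure.add_apply, Measure.smul_apply, Measure.smul_apply, measure_univ, measure_univ,
    smul_eq_mul, smul_eq_mul, mul_one, mul_one, ← ENNReal.ofReal_add h0 (by linarith)]
  simp

theorem mix_real (t : ℝ) (h0 : 0 ≤ t) (h1 : t ≤ 1) (P Q : Measure Ω) [IsProbabilityMeasure P]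
    [IsProbabilityMeasure Q] (E : Set Ω) :
    (mix t P Q).real E = t * P.real E + (1 - t) * Q.real E := by
  have hP : P E ≠ ⊤ := measure_ne_top P E
  have hQ : Q E ≠ ⊤ := measure_ne_top Q E
  rw [Measure.real, mix, Measure.add_apply, Measure.smul_apply, Measure.smul_apply, smul_eq_mul,
    smul_eq_mul, ENNReal.toReal_add (ENNReal.mul_ne_top ENNReal.ofReal_ne_top hP)
      (ENNReal.mul_ne_top ENNReal.ofReal_ne_top hQ), ENNReal.toReal_mul, ENNReal.toReal_mul,
    ENNReal.toReal_ofReal h0, ENNReal.toReal_ofReal (by linarith)]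
  rfl

theorem ent_mix_ge (t : ℝ) (h0 : 0 ≤ t) (h1 : t ≤ 1) (P Q : Measure Ω) [IsProbabilityMeasure P]
    [IsProbabilityMeasure Q] (X : Ω → α) :
    t * ent P X + (1 - t) * ent Q X ≤ ent (mix t P Q) X := by
  unfold ent
  rw [Finset.mul_sum, Finset.mul_sum, ← Finset.sum_add_distrib]
  refine Finset.sum_le_sum fun a _ => ?_
  rw [mix_real t h0 h1]
  have h := Real.concaveOn_negMulLog.2 (x := P.real (X ⁻¹' {a})) measureReal_nonneg
    (y := Q.real (X ⁻¹' {a})) measureReal_nonneg h0 (sub_nonneg.2 h1) (by ring)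
  simpa only [smul_eq_mul] using h

theorem ent_mix_le (t : ℝ) (h0 : 0 ≤ t) (h1 : t ≤ 1) (P Q : Measure Ω) [IsProbabilityMeasure P]
    [IsProbabilityMeasure Q] (X : Ω → α) (hX : Measurable X) :
    ent (mix t P Q) X ≤ t * ent P X + (1 - t) * ent Q X + Real.log 2 := by
  have hsum : ent (mix t P Q) X ≤ ∑ a, (t * Real.negMulLog (P.real (X ⁻¹' {a}))
      + P.real (X ⁻¹' {a}) * Real.negMulLog t
      + ((1 - t) * Real.negMulLog (Q.real (X ⁻¹' {a}))
      + Q.real (X ⁻¹' {a}) * Real.negMulLog (1 - t))) := by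
    unfold ent
    refine Finset.sum_le_sum fun a _ => ?_
    rw [mix_real t h0 h1]
    refine (EntAux.nml_add (mul_nonneg h0 measureReal_nonneg)
      (mul_nonneg (sub_nonneg.2 h1) measureReal_nonneg)).trans (le_of_eq ?_)
    rw [Real.negMulLog_mul, Real.negMulLog_mul]
    ring
  refine hsum.trans ?_
  rw [Finset.sum_add_distrib, Finset.sum_add_distrib, Finset.sum_add_distrib, ← Finset.mul_sum,
    ← Finset.sum_mul, ← Finset.mul_sum, ← Finset.sum_mul, EntAux.total P X hX,
    EntAux.total Q X hX]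
  have h2 : Real.negMulLog t + Real.negMulLog (1 - t) ≤ Real.log 2 := by
    rw [← Real.binEntropy_eq_negMulLog_add_negMulLog_one_sub]
    exact Real.binEntropy_le_log_two
  unfold ent
  linarith

theorem ent_avg_ge {ι : Type*} (s : Finset ι) (hs : s.Nonempty) (P : ι → Measure Ω)
    (hP : ∀ i ∈ s, IsProbabilityMeasure (P i)) (X : Ω → α) :
    (∑ i ∈ s, ent (P i) X) / s.card ≤ ent ((s.card : ENNReal)⁻¹ • ∑ i ∈ s, P i) X := by
  have hc : (0 : ℝ) < s.card := by exact_mod_cast hs.card_pos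
  have hreal : ∀ E : Set Ω, ((s.card : ENNReal)⁻¹ • ∑ i ∈ s, P i).real E
      = ∑ i ∈ s, (s.card : ℝ)⁻¹ • (P i).real E := by
    intro E
    rw [Measure.real, Measure.smul_apply, Measure.finsetSum_apply, smul_eq_mul,
      ENNReal.toReal_mul, ENNReal.toReal_inv, ENNReal.toReal_natCast, ENNReal.toReal_sum,
      Finset.mul_sum]
    · rfl
    · intro i hi
      have := hP i hi
      exact measure_ne_top _ _
  unfold ent
  rw [Finset.sum_comm, Finset.sum_div]
  refine Finset.sum_le_sum fun a _ => ?_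
  rw [hreal]
  have h := Real.concaveOn_negMulLog.le_map_sum (t := s) (w := fun _ => (s.card : ℝ)⁻¹)
    (p := fun i => (P i).real (X ⁻¹' {a})) (fun i _ => by positivity)
    (by rw [Finset.sum_const, nsmul_eq_mul, mul_inv_cancel₀ hc.ne'])
    (fun i _ => measureReal_nonneg)
  refine le_trans (le_of_eq ?_) h
  rw [Finset.sum_div]
  refine Finset.sum_congr rfl fun i _ => ?_
  rw [smul_eq_mul, div_eq_inv_mul]

end Helper15.DE
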